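import Pool.Agent.H61.RA.Tower

/-!
# Finite aperiodic semigroups embed in locally finite regular aperiodic semigroups
-/

set_option autoImplicit false

namespace Pool.Agent.Results.MP_9ca27c_lc.LocallyFiniteRegular

open Function Pool.Agent.H61.RA

/-- Every subgroup of `S` is trivial: if `e` is an idempotent and `x`, `y` are elements of `e S e` with
`x * y = y * x = e`, then `x = e`. -/
def Aperiodic (S : Type) [Semigroup S] : Prop :=
  ∀ e x y : S, e * e = e → e * x = x → x * e = x → e * y = y → y * e = y → x * y = e → y * x = e → x = e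

/-- `S` is regular. -/
def Regular (S : Type) [Semigroup S] : Prop := ∀ a : S, ∃ x, a * x * a = a

/-- `S` is locally finite: every finitely generated subsemigroup is finite. -/
def LocFinite (S : Type) [Semigroup S] : Prop :=
  ∀ F : Finset S, ((Subsemigroup.closure (F : Set S) : Subsemigroup S) : Set S).Finite

/-- in a monoid with `x ^ (n + 1) = x ^ n` all subgroups are trivial -/
theorem aper_of_stab {M : Type} [Monoid M] (h : Stab M) : Aperiodic M := by
  intro e x y ee ex xe ey ye xy yx
  obtain ⟨n, hn⟩ := h x
  have h1 : ∀ k : ℕ, x ^ k * y ^ k * e = e := by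
    intro k
    induction k with
    | zero => simp
    | succ k ih =>
      have h2 : y * e = e * y := by rw [ey, ye]
      have h3 : ∀ j : ℕ, y ^ j * e = e * y ^ j := by
        intro j
        induction j with
        | zero => simp
        | succ j ih => rw [pow_succ, mul_assoc, h2, ← mul_assoc, ih, mul_assoc]
      calc x ^ (k + 1) * y ^ (k + 1) * e = x ^ k * (x * y) * (y ^ k * e) := by
            rw [pow_succ x, pow_succ' y]; simp [mul_assoc]
        _ = x ^ k * e * (y ^ k * e) := by rw [xy]
        _ = x ^ k * (e * (e * y ^ k)) := by rw [h3 k, mul_assoc]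
        _ = x ^ k * (e * y ^ k) := by rw [← mul_assoc e e, ee]
        _ = x ^ k * (y ^ k * e) := by rw [h3 k]
        _ = e := by rw [← mul_assoc, ih]
  have h4 : x ^ (n + 1) * y ^ n * e = x * e := by
    rw [pow_succ', mul_assoc x, mul_assoc x, h1 n]
  rw [hn, h1 n, xe] at h4
  exact h4.symm

/-- in a finite group-free monoid `x ^ (n + 1) = x ^ n` -/
theorem stab_of_aper {M : Type} [Monoid M] [Finite M] (h : Aperiodic M) : Stab M := by
  intro m
  obtain ⟨i, j, hij, hm⟩ : ∃ i j : ℕ, i < j ∧ m ^ i = m ^ j := by
    obtain ⟨i, j, hne, h⟩ := Finite.exists_ne_map_eq_of_infinite (fun n : ℕ => m ^ n)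
    rcases lt_or_gt_of_ne hne with h' | h'
    · exact ⟨i, j, h', h⟩
    · exact ⟨j, i, h', h.symm⟩
  obtain ⟨k, rfl⟩ := Nat.exists_eq_add_of_lt hij
  have h1 : ∀ a, m ^ (i + a + (k + 1)) = m ^ (i + a) := by
    intro a
    rw [show i + a + (k + 1) = (i + k + 1) + a by ring, pow_add, ← hm, ← pow_add]
  have h2 : ∀ b a, m ^ (i + a + (k + 1) * b) = m ^ (i + a) := by
    intro b
    induction b with
    | zero => intro a; simp
    | succ b ih =>
      intro a
      rw [show i + a + (k + 1) * (b + 1) = i + (a + (k + 1) * b) + (k + 1) by ring, h1,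
        show i + (a + (k + 1) * b) = i + a + (k + 1) * b by ring, ih]
  -- the idempotent power
  have hN : ∃ a, (k + 1) * (i + 1) = i + a := ⟨(k + 1) * (i + 1) - i, by
    have : i ≤ (k + 1) * (i + 1) := by nlinarith
    omega⟩
  obtain ⟨a, ha⟩ := hN
  set N := (k + 1) * (i + 1) with hNdef
  have h3 : ∀ c, m ^ (N + c + N) = m ^ (N + c) := by
    intro c
    have := h2 (i + 1) (a + c)
    rw [show i + (a + c) = N + c by rw [ha]; ring] at this
    exact this
  refine ⟨N, ?_⟩
  have := h (m ^ N) (m ^ (N + 1)) (m ^ (N + k)) ?_ ?_ ?_ ?_ ?_ ?_ ?_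
  · exact this
  · rw [← pow_add]; exact h3 0
  · rw [← pow_add, show N + (N + 1) = N + 1 + N by ring]; exact h3 1
  · rw [← pow_add]; exact h3 1
  · rw [← pow_add, show N + (N + k) = N + k + N by ring]; exact h3 k
  · rw [← pow_add]; exact h3 k
  · rw [← pow_add, show N + 1 + (N + k) = i + (a + N) + (k + 1) by rw [ha]; ring, h1,
      show i + (a + N) = N + N by rw [ha]; ring]
    exact h3 0
  · rw [← pow_add, show N + k + (N + 1) = i + (a + N) + (k + 1) by rw [ha]; ring, h1,
      show i + (a + N) = N + N by rw [ha]; ring]
    exact h3 0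

theorem aper_withOne {S : Type} [Semigroup S] (h : Aperiodic S) : Aperiodic (WithOne S) := by
  intro e x y ee ex xe ey ye xy yx
  cases e with
  | one =>
    cases x with
    | one => rfl
    | coe x =>
      cases y with
      | one => rw [mul_one] at xy; exact xy
      | coe y => exact absurd xy (by rw [← WithOne.coe_mul]; exact WithOne.coe_ne_one)
  | coe e =>
    cases x with
    | one =>
      rw [mul_one] at ex
      exact absurd ex WithOne.coe_ne_one
    | coe x =>
      cases y with
      | one =>
        rw [mul_one] at ey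
        exact absurd ey WithOne.coe_ne_one
      | coe y =>
        have := h e x y (by exact_mod_cast ee) (by exact_mod_cast ex) (by exact_mod_cast xe)
          (by exact_mod_cast ey) (by exact_mod_cast ye) (by exact_mod_cast xy) (by exact_mod_cast yx)
        rw [this]

instance {S : Type} [Finite S] : Finite (WithOne S) := inferInstanceAs (Finite (Option S))

/-- the inclusion -/
def inc (S : Type) [Semigroup S] : S →ₙ* WithOne S where
  toFun := fun s => (s : WithOne S)
  map_mul' := fun _ _ => rfl

/-- (1) Every finite aperiodic semigroup `S` embeds in a finite aperiodic semigroup `T` in which all elements of `S`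
are regular.
(2) A finite semigroup embeds in a locally finite regular aperiodic semigroup if and only if it is aperiodic (and the
locally finite semigroup can be taken countable). -/
theorem result :
    (∀ (S : Type) [Semigroup S] [Finite S], Aperiodic S →
      ∃ (T : Type) (_ : Semigroup T) (_ : Finite T) (f : S →ₙ* T), Injective f ∧ Aperiodic T ∧
        ∀ s, ∃ x, f s * x * f s = f s) ∧
    (∀ (S : Type) [Semigroup S] [Finite S], Aperiodic S ↔
      ∃ (R : Type) (_ : Semigroup R) (f : S →ₙ* R), Injective f ∧ Aperiodic R ∧ Regular R ∧ LocFinite R ∧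
        Countable R) := by
  constructor
  · intro S _ _ hS
    obtain ⟨T, iT, iF, f, hf, hT, hr⟩ := stepAll (WithOne S) (stab_of_aper (aper_withOne hS))
    refine ⟨T, inferInstance, iF, f.toMulHom.comp (inc S), ?_, aper_of_stab hT, fun s => hr s⟩
    intro x y h
    exact WithOne.coe_inj.1 (hf h)
  · intro S _ _
    constructor
    · intro hS
      let P : FA := ⟨WithOne S, stab_of_aper (aper_withOne hS)⟩
      refine ⟨RR P, inferInstance, (show WithOne S →* RR P from iot P 0).toMulHom.comp (inc S), ?_,
        aper_of_stab (RR_stab P), RR_reg P,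
        RR_lf P, RR_countable P⟩
      intro x y h
      exact WithOne.coe_inj.1 (iot_inj P 0 h)
    · rintro ⟨R, iR, f, hf, hR, -⟩
      intro e x y ee ex xe ey ye xy yx
      apply hf
      exact hR (f e) (f x) (f y) (by rw [← map_mul, ee]) (by rw [← map_mul, ex]) (by rw [← map_mul, xe])
        (by rw [← map_mul, ey]) (by rw [← map_mul, ye]) (by rw [← map_mul, xy]) (by rw [← map_mul, yx])

end Pool.Agent.Results.MP_9ca27c_lc.LocallyFiniteRegular
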